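import Pool.Agent.Mg.F46786a.Gc46e19

universe u

open Pool.Agent.MP_46786a_al in
/-- For every ring `R`, every `n`-tilting right `R`-module `T` and every right `R`-module `N`:
`N` is a direct limit of modules from `Add T` iff it is a pure epimorphic image of a direct sum
of copies of `T`. -/
theorem Pool.Agent.Results.MP_46786a_al.TiltingClosures.result
    (R : Type u) [Ring R] (n : ℕ) (T : ModuleCat.{u} Rᵐᵒᵖ) (hT : IsTilting n T)
    (N : ModuleCat.{u} Rᵐᵒᵖ) :
    InDirectLimitAdd T N ↔ InPureImageAdd T N :=
  ⟨InDirectLimitAdd.inPureImageAdd, hT.inDirectLimitAdd⟩
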