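import Pool.Agent.MP_46786a_al.Sharp

open Pool.Agent.MP_46786a_al in
/-- There are a ring `R`, a 1-tilting right `R`-module `T`, a countably presented flat module `M`
in `Add T` and a pure submodule `K` of `M` such that `M ⧸ K` embeds in no direct limit of modules
from `Add M`; in particular it is not such a direct limit itself. -/
theorem Pool.Agent.Results.MP_46786a_al.TiltingSummand.result :
    ∃ (R : Type) (_ : Ring R) (T M : ModuleCat.{0} Rᵐᵒᵖ) (K : Submodule Rᵐᵒᵖ M),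
      IsTilting 1 T ∧ InAdd T M ∧
      (∃ (f : (ℕ →₀ Rᵐᵒᵖ) →ₗ[Rᵐᵒᵖ] (ℕ →₀ Rᵐᵒᵖ)) (g : (ℕ →₀ Rᵐᵒᵖ) →ₗ[Rᵐᵒᵖ] M),
        Function.Injective f ∧ Function.Exact f g ∧ Function.Surjective g ∧
        IsPureSubmodule (LinearMap.ker g)) ∧
      IsPureSubmodule K ∧ ∀ N : ModuleCat.{0} Rᵐᵒᵖ, InDirectLimitAdd M N →
        ∀ φ : (M ⧸ K) →ₗ[Rᵐᵒᵖ] N, ¬ Function.Injective φ := by
  obtain ⟨T, h1, h2⟩ := Sharp.exists_tilting
  exact ⟨Sharp.S, inferInstance, T, ModuleCat.of Sharp.R Sharp.V, Sharp.K, h1, h2,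
    ⟨Sharp.pf, Sharp.pg, Sharp.pres.inj, Sharp.pres.ex, Sharp.pres.surj, Sharp.pure_pres⟩,
    Sharp.pure_K, Sharp.not_embed⟩
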